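import Mathlib

/-!
# Good sequences without ratio limits (problem MP_d99131_an, Q1, negated form)
-/

namespace Pool.Agent.Results.MP_d99131_an.NoRatioLimit

open Filter Topology Set
open scoped ENNReal

universe u

/-- The upper density `limsup_N |B ∩ [1,N]| / N` of a set of positive integers. -/
noncomputable def upperDensity (B : Set ℕ) : ℝ :=
  limsup (fun N : ℕ => ((B ∩ Set.Icc 1 N).ncard : ℝ) / (N : ℝ)) atTop

/-- The lower density `liminf_N |B ∩ [1,N]| / N` of a set of positive integers. -/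
noncomputable def lowerDensity (B : Set ℕ) : ℝ :=
  liminf (fun N : ℕ => ((B ∩ Set.Icc 1 N).ncard : ℝ) / (N : ℝ)) atTop

/-- Property `A` of a sequence `(T_n)_{n ≥ 1}` of operators on `X`: for every non-empty open `U`
there is `x` with `{n ≥ 1 : T_n x ∈ U}` of positive upper density. -/
def PropertyA {X : Type u} [NormedAddCommGroup X] [NormedSpace ℂ X]
    (T : ℕ → (X →L[ℂ] X)) : Prop :=
  ∀ U : Set X, IsOpen U → U.Nonempty → ∃ x : X, 0 < upperDensity {n : ℕ | T n x ∈ U}

/-- Topological multiple recurrence: for every non-empty open `U` and every `m ≥ 1` there is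
`k ≥ 1` with `U ∩ T^{-k} U ∩ ... ∩ T^{-mk} U ≠ ∅`. -/
def MultiplyRecurrent {X : Type u} [NormedAddCommGroup X] [NormedSpace ℂ X]
    (T : X →L[ℂ] X) : Prop :=
  ∀ U : Set X, IsOpen U → U.Nonempty → ∀ m : ℕ, 1 ≤ m →
    ∃ k : ℕ, 1 ≤ k ∧ ∃ x : X, ∀ j : ℕ, j ≤ m → (T ^ (j * k)) x ∈ U

/-- A sequence `(lam n)_{n ≥ 1}` of nonzero complex numbers is good if, for every
infinite-dimensional separable complex Banach space `X` and every operator `T` on `X`, the operator
`T` is topologically multiply recurrent whenever `(lam n • T^n)_n` has property `A`. -/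
def IsGood (lam : ℕ → ℂ) : Prop :=
  (∀ n : ℕ, 1 ≤ n → lam n ≠ 0) ∧
  ∀ (X : Type u) [NormedAddCommGroup X] [NormedSpace ℂ X] [CompleteSpace X]
    [TopologicalSpace.SeparableSpace X], ¬ FiniteDimensional ℂ X →
    ∀ T : X →L[ℂ] X, PropertyA (fun n => lam n • T ^ n) → MultiplyRecurrent T

/-- The ratio `|lam n| / |lam (n + tau)|`, as an element of `[0, ∞]`. -/
noncomputable def ratio (lam : ℕ → ℂ) (tau n : ℕ) : ℝ≥0∞ :=
  ENNReal.ofReal (‖lam n‖ / ‖lam (n + tau)‖)

/-- The ratio `|lam n| / |lam (n + tau)|` has a limit in `[0, ∞]` as `n → ∞`. -/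
def HasRatioLimit (lam : ℕ → ℂ) (tau : ℕ) : Prop :=
  ∃ L : ℝ≥0∞, Tendsto (ratio lam tau) atTop (𝓝 L)

/-! ## Density lemmas -/

lemma ratio_le_one (B : Set ℕ) (N : ℕ) : ((B ∩ Set.Icc 1 N).ncard : ℝ) / (N : ℝ) ≤ 1 := by
  have h1 : (B ∩ Set.Icc 1 N).ncard ≤ N := by
    calc (B ∩ Set.Icc 1 N).ncard ≤ (Set.Icc 1 N).ncard :=
          Set.ncard_le_ncard Set.inter_subset_right (Set.finite_Icc 1 N)
      _ = N := by
          rw [← Nat.card_coe_set_eq]; simp
  rcases Nat.eq_zero_or_pos N with h | h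
  · subst h; simp
  · rw [div_le_one (by exact_mod_cast h)]
    exact_mod_cast h1

lemma ratio_nonneg (B : Set ℕ) (N : ℕ) : 0 ≤ ((B ∩ Set.Icc 1 N).ncard : ℝ) / (N : ℝ) := by
  positivity

lemma bdd_above (B : Set ℕ) :
    IsBoundedUnder (· ≤ ·) atTop (fun N : ℕ => ((B ∩ Set.Icc 1 N).ncard : ℝ) / (N : ℝ)) :=
  isBoundedUnder_of ⟨1, fun N => ratio_le_one B N⟩

lemma cobdd (B : Set ℕ) :
    IsCoboundedUnder (· ≤ ·) atTop (fun N : ℕ => ((B ∩ Set.Icc 1 N).ncard : ℝ) / (N : ℝ)) :=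
  IsBoundedUnder.isCoboundedUnder_le (isBoundedUnder_of ⟨0, fun N => ratio_nonneg B N⟩)

lemma cobdd' (B : Set ℕ) :
    IsCoboundedUnder (· ≥ ·) atTop (fun N : ℕ => ((B ∩ Set.Icc 1 N).ncard : ℝ) / (N : ℝ)) :=
  IsBoundedUnder.isCoboundedUnder_ge (isBoundedUnder_of ⟨1, fun N => ratio_le_one B N⟩)

/-- If `B` is contained in `B'` up to finitely many elements, then the upper density
of `B` is at most that of `B'`. -/
lemma upperDensity_le_of_subset_union {B B' : Set ℕ} {M : ℕ} (h : B ⊆ B' ∪ Set.Iio M) :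
    upperDensity B ≤ upperDensity B' := by
  have hE : Tendsto (fun N : ℕ => ((Set.Iio M ∩ Set.Icc 1 N).ncard : ℝ) / (N : ℝ)) atTop
      (𝓝 0) := by
    refine squeeze_zero (fun N => by positivity) (fun N => ?_)
      (tendsto_const_div_atTop_nhds_zero_nat (M : ℝ))
    apply div_le_div_of_nonneg_right _ (Nat.cast_nonneg N)
    have : (Set.Iio M ∩ Set.Icc 1 N).ncard ≤ (Set.Iio M).ncard :=
      Set.ncard_le_ncard Set.inter_subset_left (Set.finite_Iio M)
    have h2 : (Set.Iio M).ncard = M := by rw [← Nat.card_coe_set_eq]; simp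
    rw [h2] at this
    exact_mod_cast this
  unfold upperDensity
  refine le_of_forall_pos_le_add fun ε hε => ?_
  have h1 : ∀ᶠ N : ℕ in atTop, ((Set.Iio M ∩ Set.Icc 1 N).ncard : ℝ) / (N : ℝ) < ε / 2 :=
    hE.eventually (gt_mem_nhds (half_pos hε))
  have h2 : ∀ᶠ N : ℕ in atTop, ((B' ∩ Set.Icc 1 N).ncard : ℝ) / (N : ℝ) <
      limsup (fun N : ℕ => ((B' ∩ Set.Icc 1 N).ncard : ℝ) / (N : ℝ)) atTop + ε / 2 :=
    eventually_lt_of_limsup_lt (by linarith) (bdd_above B')
  refine limsup_le_of_le (cobdd B) ?_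
  filter_upwards [h1, h2] with N hN1 hN2
  have h3 : (B ∩ Set.Icc 1 N).ncard ≤
      (B' ∩ Set.Icc 1 N).ncard + (Set.Iio M ∩ Set.Icc 1 N).ncard := by
    calc (B ∩ Set.Icc 1 N).ncard ≤ ((B' ∩ Set.Icc 1 N) ∪ (Set.Iio M ∩ Set.Icc 1 N)).ncard := by
          apply Set.ncard_le_ncard
          · rintro n ⟨hn, hn'⟩
            rcases h hn with h | h
            · exact Or.inl ⟨h, hn'⟩
            · exact Or.inr ⟨h, hn'⟩
          · exact ((Set.finite_Icc 1 N).subset Set.inter_subset_right).union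
              ((Set.finite_Icc 1 N).subset Set.inter_subset_right)
      _ ≤ _ := Set.ncard_union_le _ _
  have h4 : ((B ∩ Set.Icc 1 N).ncard : ℝ) / (N : ℝ) ≤
      ((B' ∩ Set.Icc 1 N).ncard : ℝ) / (N : ℝ) +
        ((Set.Iio M ∩ Set.Icc 1 N).ncard : ℝ) / (N : ℝ) := by
    rw [← add_div]
    apply div_le_div_of_nonneg_right _ (Nat.cast_nonneg N)
    exact_mod_cast h3
  linarith

/-- Doubling does not increase the upper density. -/
lemma upperDensity_double_le (B : Set ℕ) :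
    upperDensity {n : ℕ | ∃ m ∈ B, n = 2 * m} ≤ upperDensity B := by
  unfold upperDensity
  refine limsup_le_limsup (Eventually.of_forall fun N => ?_) (cobdd _) (bdd_above B)
  apply div_le_div_of_nonneg_right _ (Nat.cast_nonneg N)
  have hsub : {n : ℕ | ∃ m ∈ B, n = 2 * m} ∩ Set.Icc 1 N ⊆ (fun m => 2 * m) '' (B ∩ Set.Icc 1 N) := by
    rintro n ⟨⟨m, hm, rfl⟩, h1, h2⟩
    exact ⟨m, ⟨hm, by omega, by omega⟩, rfl⟩
  have hfin : (B ∩ Set.Icc 1 N).Finite := (Set.finite_Icc 1 N).subset Set.inter_subset_right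
  have h1 := (Set.ncard_le_ncard hsub (hfin.image _)).trans (Set.ncard_image_le hfin)
  exact_mod_cast h1

/-- Doubling divides the upper density by at most two. -/
lemma upperDensity_double_ge (B : Set ℕ) :
    upperDensity B / 2 ≤ upperDensity {n : ℕ | ∃ m ∈ B, n = 2 * m} := by
  set D : Set ℕ := {n : ℕ | ∃ m ∈ B, n = 2 * m} with hD
  refine le_of_forall_pos_le_add fun ε hε => ?_
  have h2 : ∀ᶠ N : ℕ in atTop, ((D ∩ Set.Icc 1 N).ncard : ℝ) / (N : ℝ) <
      upperDensity D + ε :=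
    eventually_lt_of_limsup_lt (show limsup _ atTop < _ by
      change upperDensity D < upperDensity D + ε; linarith) (bdd_above D)
  obtain ⟨N₀, hN₀⟩ := eventually_atTop.mp h2
  have h3 : upperDensity B ≤ 2 * (upperDensity D + ε) := by
    refine limsup_le_of_le (cobdd B) ?_
    filter_upwards [eventually_ge_atTop N₀, eventually_ge_atTop 1] with N hN hN1
    have h4 := hN₀ (2 * N) (by omega)
    have hinj : Function.Injective (fun m : ℕ => 2 * m) := fun a b h => by
      simp only at h; omega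
    have hsub : (fun m => 2 * m) '' (B ∩ Set.Icc 1 N) ⊆ D ∩ Set.Icc 1 (2 * N) := by
      rintro n ⟨m, ⟨hm, h1, h2⟩, rfl⟩
      exact ⟨⟨m, hm, rfl⟩, by simp only; omega, by simp only; omega⟩
    have hfin : (D ∩ Set.Icc 1 (2 * N)).Finite :=
      (Set.finite_Icc 1 (2 * N)).subset Set.inter_subset_right
    have h5 : (B ∩ Set.Icc 1 N).ncard ≤ (D ∩ Set.Icc 1 (2 * N)).ncard := by
      rw [← Set.ncard_image_of_injective _ hinj]
      exact Set.ncard_le_ncard hsub hfin
    have hNpos : (0 : ℝ) < N := by exact_mod_cast hN1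
    have h6 : ((B ∩ Set.Icc 1 N).ncard : ℝ) ≤ ((D ∩ Set.Icc 1 (2 * N)).ncard : ℝ) := by
      exact_mod_cast h5
    push_cast at h4
    rw [div_lt_iff₀ (by linarith)] at h4
    rw [div_le_iff₀ hNpos]
    linarith
  linarith

/-- An arithmetic progression has positive lower density. -/
lemma lowerDensity_progression_pos (r q : ℕ) (hq : 1 ≤ q) :
    0 < lowerDensity {n : ℕ | ∃ i : ℕ, n = r + q * (i + 1)} := by
  have hqpos : (0 : ℝ) < q := by exact_mod_cast hq
  have hpos : (0 : ℝ) < 1 / (2 * q) := by positivity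
  refine lt_of_lt_of_le hpos ?_
  unfold lowerDensity
  refine le_liminf_of_le (cobdd' _) ?_
  filter_upwards [eventually_ge_atTop (2 * (r + q))] with N hN
  have hNpos : (0 : ℝ) < N := by
    have : 1 ≤ N := by omega
    exact_mod_cast this
  have hsub : (fun i => r + q * (i + 1)) '' (Finset.range ((N - r) / q) : Set ℕ) ⊆
      {n : ℕ | ∃ i : ℕ, n = r + q * (i + 1)} ∩ Set.Icc 1 N := by
    rintro n ⟨i, hi, rfl⟩
    simp only [Finset.coe_range, Set.mem_Iio] at hi
    have h1 : q * (i + 1) ≤ N - r := by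
      calc q * (i + 1) ≤ q * ((N - r) / q) := Nat.mul_le_mul_left q hi
        _ ≤ N - r := Nat.mul_div_le _ _
    refine ⟨⟨i, rfl⟩, ?_, ?_⟩
    · have : 1 ≤ q * (i + 1) := Nat.mul_pos hq (Nat.succ_pos i)
      simp only; omega
    · simp only; omega
  have hinj : Function.Injective (fun i => r + q * (i + 1)) := by
    intro a b h
    simp only [Nat.add_left_cancel_iff] at h
    have := Nat.eq_of_mul_eq_mul_left hq h
    omega
  have hfin : ({n : ℕ | ∃ i : ℕ, n = r + q * (i + 1)} ∩ Set.Icc 1 N).Finite :=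
    (Set.finite_Icc 1 N).subset Set.inter_subset_right
  have h5 : (N - r) / q ≤ ({n : ℕ | ∃ i : ℕ, n = r + q * (i + 1)} ∩ Set.Icc 1 N).ncard := by
    calc (N - r) / q = (Finset.range ((N - r) / q) : Set ℕ).ncard := by
          rw [Set.ncard_coe_finset]; simp
      _ = ((fun i => r + q * (i + 1)) '' (Finset.range ((N - r) / q) : Set ℕ)).ncard :=
          (Set.ncard_image_of_injective _ hinj).symm
      _ ≤ _ := Set.ncard_le_ncard hsub hfin
  have h6 : (N : ℝ) ≤ 2 * q * (((N - r) / q : ℕ) : ℝ) := by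
    have h7 : N - r < q * ((N - r) / q) + q := by
      have := Nat.div_add_mod (N - r) q
      have := Nat.mod_lt (N - r) hq
      omega
    have h8 : N ≤ 2 * (q * ((N - r) / q)) := by omega
    have h9 : (N : ℝ) ≤ ((2 * (q * ((N - r) / q)) : ℕ) : ℝ) := by exact_mod_cast h8
    push_cast at h9
    linarith
  rw [le_div_iff₀ hNpos, div_mul_eq_mul_div, one_mul, div_le_iff₀ (by positivity)]
  have h10 : (((N - r) / q : ℕ) : ℝ) ≤
      (({n : ℕ | ∃ i : ℕ, n = r + q * (i + 1)} ∩ Set.Icc 1 N).ncard : ℝ) := by exact_mod_cast h5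
  calc (N : ℝ) ≤ 2 * q * (((N - r) / q : ℕ) : ℝ) := h6
    _ ≤ 2 * q * (({n : ℕ | ∃ i : ℕ, n = r + q * (i + 1)} ∩ Set.Icc 1 N).ncard : ℝ) :=
        mul_le_mul_of_nonneg_left h10 (by positivity)
    _ = _ := by ring

lemma lowerDensity_mono {B B' : Set ℕ} (h : B ⊆ B') : lowerDensity B ≤ lowerDensity B' := by
  unfold lowerDensity
  refine liminf_le_liminf (Eventually.of_forall fun N => ?_)
    (isBoundedUnder_of ⟨0, fun N => ratio_nonneg B N⟩) (cobdd' B')
  apply div_le_div_of_nonneg_right _ (Nat.cast_nonneg N)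
  have : (B ∩ Set.Icc 1 N).ncard ≤ (B' ∩ Set.Icc 1 N).ncard :=
    Set.ncard_le_ncard (Set.inter_subset_inter_left _ h)
      ((Set.finite_Icc 1 N).subset Set.inter_subset_right)
  exact_mod_cast this

/-! ## Orbits are eventually small if the weights decay superexponentially -/

lemma orbit_small {X : Type u} [NormedAddCommGroup X] [NormedSpace ℂ X] (T : X →L[ℂ] X) (x : X)
    {r : ℝ} (hr : 0 < r) :
    ∃ M : ℕ, ∀ n, M ≤ n → ∀ c : ℂ, ‖c‖ ≤ ((n.factorial : ℝ))⁻¹ → ‖(c • T ^ n) x‖ < r := by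
  have hlim : Tendsto (fun n : ℕ => ‖T‖ ^ n / (n.factorial : ℝ) * ‖x‖) atTop (𝓝 0) := by
    simpa using (FloorSemiring.tendsto_pow_div_factorial_atTop ‖T‖).mul_const ‖x‖
  have hev : ∀ᶠ n : ℕ in atTop, ‖T‖ ^ n / (n.factorial : ℝ) * ‖x‖ < r :=
    hlim.eventually (gt_mem_nhds hr)
  obtain ⟨M, hM⟩ := eventually_atTop.mp hev
  refine ⟨M, fun n hn c hc => lt_of_le_of_lt ?_ (hM n hn)⟩
  have h1 : (c • T ^ n) x = c • (T ^ n) x := rfl
  rw [h1, norm_smul]
  have h3 : ‖(T ^ n) x‖ ≤ ‖T‖ ^ n * ‖x‖ := by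
    clear hn hc h1
    induction n with
    | zero => simp
    | succ n ih =>
      have e : (T ^ (n + 1)) x = T ((T ^ n) x) := by rw [pow_succ']; rfl
      rw [e]
      calc ‖T ((T ^ n) x)‖ ≤ ‖T‖ * ‖(T ^ n) x‖ := T.le_opNorm _
        _ ≤ ‖T‖ * (‖T‖ ^ n * ‖x‖) := mul_le_mul_of_nonneg_left ih (norm_nonneg _)
        _ = _ := by ring
  calc ‖c‖ * ‖(T ^ n) x‖ ≤ ((n.factorial : ℝ))⁻¹ * (‖T‖ ^ n * ‖x‖) :=
        mul_le_mul hc h3 (norm_nonneg _) (by positivity)
    _ = _ := by ring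

/-- In a nontrivial space every non-empty open set contains a non-empty open set which is
bounded away from `0`. -/
lemma exists_open_away {X : Type u} [NormedAddCommGroup X] [NormedSpace ℂ X]
    (hX : ¬ FiniteDimensional ℂ X) {U : Set X} (hU : IsOpen U) (hne : U.Nonempty) :
    ∃ r : ℝ, 0 < r ∧ IsOpen (U ∩ {y | r < ‖y‖}) ∧ (U ∩ {y | r < ‖y‖}).Nonempty := by
  have hnt : Nontrivial X := by
    by_contra hcon
    rw [not_nontrivial_iff_subsingleton] at hcon
    exact hX inferInstance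
  have hex : ∃ y ∈ U, y ≠ 0 := by
    by_contra hcon
    push Not at hcon
    obtain ⟨y, hy⟩ := hne
    have hy0 := hcon y hy
    subst hy0
    have hU0 : U = {0} := by
      ext z
      constructor
      · intro hz; exact hcon z hz
      · intro hz; rw [Set.mem_singleton_iff] at hz; subst hz; exact hy
    rw [hU0] at hU
    exact not_isOpen_singleton (0 : X) hU
  obtain ⟨y, hy, hy0⟩ := hex
  have hpos : 0 < ‖y‖ := norm_pos_iff.mpr hy0
  refine ⟨‖y‖ / 2, by positivity, hU.inter (isOpen_lt continuous_const continuous_norm), y, hy, ?_⟩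
  show ‖y‖ / 2 < ‖y‖
  linarith

/-! ## Existence of a good sequence -/

lemma isGood_inv_factorial : IsGood.{u} (fun n => ((n.factorial : ℂ))⁻¹) := by
  refine ⟨fun n _ => inv_ne_zero (by exact_mod_cast n.factorial_ne_zero), ?_⟩
  intro X _ _ _ _ hX T hT
  exfalso
  obtain ⟨r, hr, hopen, hne⟩ := exists_open_away hX (U := Set.univ) isOpen_univ Set.univ_nonempty
  obtain ⟨x, hx⟩ := hT _ hopen hne
  obtain ⟨M, hM⟩ := orbit_small T x hr
  have hsub : {n : ℕ | (((n.factorial : ℂ))⁻¹ • T ^ n) x ∈ Set.univ ∩ {y : X | r < ‖y‖}} ⊆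
      (∅ : Set ℕ) ∪ Set.Iio M := by
    intro n hn
    right
    by_contra hcon
    have hMn : M ≤ n := by simpa using hcon
    have h1 := hM n hMn ((n.factorial : ℂ))⁻¹ (by rw [norm_inv, Complex.norm_natCast])
    have h2 : r < ‖(((n.factorial : ℂ))⁻¹ • T ^ n) x‖ := hn.2
    linarith
  have h0 : upperDensity (∅ : Set ℕ) = 0 := by
    unfold upperDensity
    simp
  have := upperDensity_le_of_subset_union hsub
  linarith

/-! ## The modification -/

/-- A rapidly decreasing sequence attached to `lam`. -/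
noncomputable def fast (lam : ℕ → ℂ) (a : ℕ) : ℝ :=
  (((a.factorial : ℝ)) * (1 + ∑ i ∈ Finset.Icc 1 a, ‖lam i‖⁻¹))⁻¹

lemma fast_pos (lam : ℕ → ℂ) (a : ℕ) : 0 < fast lam a := by
  unfold fast
  have : (0 : ℝ) ≤ ∑ i ∈ Finset.Icc 1 a, ‖lam i‖⁻¹ := Finset.sum_nonneg fun _ _ => by positivity
  positivity

lemma fast_le_inv_factorial (lam : ℕ → ℂ) (a : ℕ) : fast lam a ≤ ((a.factorial : ℝ))⁻¹ := by
  unfold fast
  have h : (0 : ℝ) ≤ ∑ i ∈ Finset.Icc 1 a, ‖lam i‖⁻¹ := Finset.sum_nonneg fun _ _ => by positivity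
  have hf : (0 : ℝ) < (a.factorial : ℝ) := by positivity
  apply inv_anti₀ hf
  nlinarith

lemma fast_le_lam {lam : ℕ → ℂ} (h : ∀ n : ℕ, 1 ≤ n → lam n ≠ 0) {a i : ℕ} (h1 : 1 ≤ i)
    (h2 : i ≤ a) : fast lam a * (a.factorial : ℝ) ≤ ‖lam i‖ := by
  unfold fast
  have hpos : 0 < ‖lam i‖ := norm_pos_iff.mpr (h i h1)
  have h3 : ‖lam i‖⁻¹ ≤ ∑ i ∈ Finset.Icc 1 a, ‖lam i‖⁻¹ :=
    Finset.single_le_sum (f := fun i => ‖lam i‖⁻¹) (fun _ _ => by positivity)
      (Finset.mem_Icc.mpr ⟨h1, h2⟩)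
  have hf : (0 : ℝ) < (a.factorial : ℝ) := by positivity
  have h5 : 0 < ‖lam i‖⁻¹ := by positivity
  have h6 : 0 < 1 + ∑ i ∈ Finset.Icc 1 a, ‖lam i‖⁻¹ := by linarith
  rw [mul_inv, mul_right_comm, inv_mul_cancel₀ hf.ne', one_mul]
  rw [inv_le_comm₀ h6 hpos]
  linarith

lemma fast_succ_le (lam : ℕ → ℂ) (a : ℕ) : fast lam (a + 1) * ((a : ℝ) + 1) ≤ fast lam a := by
  unfold fast
  have h : (0 : ℝ) ≤ ∑ i ∈ Finset.Icc 1 a, ‖lam i‖⁻¹ := Finset.sum_nonneg fun _ _ => by positivity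
  have hs : ∑ i ∈ Finset.Icc 1 a, ‖lam i‖⁻¹ ≤ ∑ i ∈ Finset.Icc 1 (a + 1), ‖lam i‖⁻¹ := by
    apply Finset.sum_le_sum_of_subset_of_nonneg
    · exact Finset.Icc_subset_Icc_right (Nat.le_succ a)
    · intro _ _ _; positivity
  have hf : (0 : ℝ) < (a.factorial : ℝ) := by positivity
  have ha : (0 : ℝ) < (a : ℝ) + 1 := by positivity
  rw [Nat.factorial_succ]
  push_cast
  have e : ((((a : ℝ) + 1) * (a.factorial : ℝ)) *
      (1 + ∑ i ∈ Finset.Icc 1 (a + 1), ‖lam i‖⁻¹))⁻¹ * ((a : ℝ) + 1) =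
      ((a.factorial : ℝ) * (1 + ∑ i ∈ Finset.Icc 1 (a + 1), ‖lam i‖⁻¹))⁻¹ := by
    rw [mul_assoc, mul_inv, mul_comm (((a : ℝ) + 1)⁻¹), mul_assoc, inv_mul_cancel₀ ha.ne', mul_one]
  rw [e]
  apply inv_anti₀
  · positivity
  · exact mul_le_mul_of_nonneg_left (by linarith) hf.le

lemma fast_le (lam : ℕ → ℂ) {a b : ℕ} (hab : a < b) : fast lam b * (b : ℝ) ≤ fast lam a := by
  induction b, hab using Nat.le_induction with
  | base => simpa using fast_succ_le lam a
  | succ b hb ih =>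
    have h1 := fast_succ_le lam b
    have hb1 : (1 : ℝ) ≤ b := by
      have : 1 ≤ b := le_trans (Nat.succ_le_succ (Nat.zero_le a)) hb
      exact_mod_cast this
    have h2 := fast_pos lam b
    have h3 : fast lam b ≤ fast lam b * b := by nlinarith
    push_cast
    linarith

/-- The level of `n`: the exponent of `2` in `n - 1`; it is `0` for even `n`. -/
def level (n : ℕ) : ℕ := padicValNat 2 (n - 1)

/-- The modified sequence. -/
noncomputable def modify (lam : ℕ → ℂ) (n : ℕ) : ℂ :=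
  if level n = 0 then lam n else ((fast lam (n * (1 + level n)) : ℝ) : ℂ)

lemma level_even {n : ℕ} (h : Even n) : level n = 0 := by
  unfold level
  rcases Nat.eq_zero_or_pos n with h0 | h0
  · subst h0; simp
  · apply padicValNat.eq_zero_of_not_dvd
    intro hd
    obtain ⟨a, ha⟩ := h
    obtain ⟨b, hb⟩ := hd
    omega

lemma modify_even (lam : ℕ → ℂ) {n : ℕ} (h : Even n) : modify lam n = lam n := by
  simp [modify, level_even h]

lemma modify_zero_level (lam : ℕ → ℂ) {n : ℕ} (h : level n = 0) : modify lam n = lam n := by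
  simp [modify, h]

lemma modify_pos_level (lam : ℕ → ℂ) {n : ℕ} (h : level n ≠ 0) :
    ‖modify lam n‖ = fast lam (n * (1 + level n)) := by
  unfold modify
  rw [if_neg h, Complex.norm_real, Real.norm_of_nonneg (fast_pos _ _).le]

lemma modify_ne_zero {lam : ℕ → ℂ} (h : ∀ n : ℕ, 1 ≤ n → lam n ≠ 0) (n : ℕ) (hn : 1 ≤ n) :
    modify lam n ≠ 0 := by
  by_cases hp : level n = 0
  · rw [modify_zero_level lam hp]; exact h n hn
  · rw [← norm_ne_zero_iff, modify_pos_level lam hp]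
    exact (fast_pos _ _).ne'

lemma modify_small (lam : ℕ → ℂ) {n : ℕ} (h : level n ≠ 0) :
    ‖modify lam n‖ ≤ ((n.factorial : ℝ))⁻¹ := by
  rw [modify_pos_level lam h]
  refine (fast_le_inv_factorial _ _).trans ?_
  apply inv_anti₀ (by positivity)
  have : n.factorial ≤ (n * (1 + level n)).factorial :=
    Nat.factorial_le (Nat.le_mul_of_pos_right n (by omega))
  exact_mod_cast this

/-- Comparison: the ratio is small if the level drops. -/
lemma ratio_drop {lam : ℕ → ℂ} (h : ∀ n : ℕ, 1 ≤ n → lam n ≠ 0) {n tau : ℕ} (hn : 1 ≤ n)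
    (hl : level (n + tau) < level n) (hbig : tau * (1 + level (n + tau)) < n) :
    ‖modify lam n‖ / ‖modify lam (n + tau)‖ ≤ 1 / (n : ℝ) := by
  have hnpos : (0 : ℝ) < n := by exact_mod_cast hn
  have hpos : 0 < ‖modify lam (n + tau)‖ := norm_pos_iff.mpr (modify_ne_zero h _ (by omega))
  rw [div_le_div_iff₀ hpos hnpos, one_mul]
  have hl1 : level n ≠ 0 := by omega
  rw [modify_pos_level lam hl1]
  set a := n * (1 + level n) with ha
  have han : n ≤ a := Nat.le_mul_of_pos_right n (by omega)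
  have hfa := fast_pos lam a
  have hle : (n : ℝ) ≤ a := by exact_mod_cast han
  by_cases h0 : level (n + tau) = 0
  · rw [modify_zero_level lam h0]
    have h1 : n + tau ≤ a := by
      have h2 : n * 2 ≤ a := Nat.mul_le_mul_left n (by omega)
      have h3 : tau * (1 + level (n + tau)) = tau := by rw [h0]; ring
      omega
    refine le_trans ?_ (fast_le_lam h (by omega) h1)
    apply mul_le_mul_of_nonneg_left _ hfa.le
    have h4 : a ≤ a.factorial := Nat.self_le_factorial a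
    have h5 : (a : ℝ) ≤ (a.factorial : ℝ) := by exact_mod_cast h4
    linarith
  · rw [modify_pos_level lam h0]
    have h1 : (n + tau) * (1 + level (n + tau)) < a := by
      calc (n + tau) * (1 + level (n + tau)) = n * (1 + level (n + tau)) +
            tau * (1 + level (n + tau)) := by ring
        _ < n * (1 + level (n + tau)) + n := by omega
        _ = n * (1 + (level (n + tau) + 1)) := by ring
        _ ≤ a := Nat.mul_le_mul_left n (by omega)
    refine le_trans ?_ (fast_le lam h1)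
    exact mul_le_mul_of_nonneg_left hle hfa.le

/-- Comparison: the ratio is large if the level rises. -/
lemma ratio_rise {lam : ℕ → ℂ} (h : ∀ n : ℕ, 1 ≤ n → lam n ≠ 0) {n tau : ℕ} (hn : 1 ≤ n)
    (hl : level n < level (n + tau)) :
    (n : ℝ) ≤ ‖modify lam n‖ / ‖modify lam (n + tau)‖ := by
  have hpos : 0 < ‖modify lam (n + tau)‖ := norm_pos_iff.mpr (modify_ne_zero h _ (by omega))
  rw [le_div_iff₀ hpos]
  have hl1 : level (n + tau) ≠ 0 := by omega
  rw [modify_pos_level lam hl1]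
  set a := (n + tau) * (1 + level (n + tau)) with ha
  have han : n ≤ a := le_trans (Nat.le_add_right n tau) (Nat.le_mul_of_pos_right _ (by omega))
  have hfa := fast_pos lam a
  have hle : (n : ℝ) ≤ a := by exact_mod_cast han
  rw [mul_comm]
  by_cases h0 : level n = 0
  · rw [modify_zero_level lam h0]
    refine le_trans ?_ (fast_le_lam h hn han)
    apply mul_le_mul_of_nonneg_left _ hfa.le
    have h4 : a ≤ a.factorial := Nat.self_le_factorial a
    have h5 : (a : ℝ) ≤ (a.factorial : ℝ) := by exact_mod_cast h4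
    linarith
  · rw [modify_pos_level lam h0]
    have h1 : n * (1 + level n) < a := by
      calc n * (1 + level n) < n * (1 + level n) + n := by omega
        _ = n * (1 + (level n + 1)) := by ring
        _ ≤ n * (1 + level (n + tau)) := Nat.mul_le_mul_left n (by omega)
        _ ≤ a := Nat.mul_le_mul_right _ (by omega)
    refine le_trans ?_ (fast_le lam h1)
    exact mul_le_mul_of_nonneg_left hle hfa.le

/-! ## Levels along progressions -/

lemma exists_two_pow_mul_odd {tau : ℕ} (ht : 1 ≤ tau) : ∃ j o : ℕ, tau = 2 ^ j * (2 * o + 1) := by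
  obtain ⟨j, m, hm, he⟩ := Nat.exists_eq_two_pow_mul_odd (n := tau) (by omega)
  obtain ⟨o, ho⟩ := hm
  exact ⟨j, o, by rw [he, ho]⟩

lemma padic_ge {j m : ℕ} (hm : 1 ≤ m) : j + 1 ≤ padicValNat 2 (2 ^ (j + 1) * m) := by
  have : Fact (Nat.Prime 2) := ⟨Nat.prime_two⟩
  rw [padicValNat.mul (by positivity) (by omega), padicValNat.prime_pow]
  omega

lemma padic_eq (j m : ℕ) : padicValNat 2 (2 ^ j * (2 * m + 1)) = j := by
  have : Fact (Nat.Prime 2) := ⟨Nat.prime_two⟩
  rw [padicValNat.mul (by positivity) (by omega), padicValNat.prime_pow,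
    padicValNat.eq_zero_of_not_dvd (by omega)]
  rfl

/-- For every `tau ≥ 1`, the ratio of the modified sequence tends to `0` along a set of
positive lower density. -/
lemma modify_tendsto_zero {lam : ℕ → ℂ} (h : ∀ n : ℕ, 1 ≤ n → lam n ≠ 0) {tau : ℕ}
    (ht : 1 ≤ tau) :
    ∃ S : Set ℕ, 0 < lowerDensity S ∧ Tendsto (ratio (modify lam) tau) (atTop ⊓ 𝓟 S) (𝓝 0) := by
  obtain ⟨j, o, htau⟩ := exists_two_pow_mul_odd ht
  refine ⟨{n : ℕ | ∃ i : ℕ, n = 1 + 2 ^ (j + 1) * (i + 1)},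
    lowerDensity_progression_pos 1 (2 ^ (j + 1)) Nat.one_le_two_pow, ?_⟩
  have hlim : Tendsto (fun n : ℕ => ENNReal.ofReal (1 / (n : ℝ)))
      (atTop ⊓ 𝓟 {n : ℕ | ∃ i : ℕ, n = 1 + 2 ^ (j + 1) * (i + 1)}) (𝓝 0) := by
    have h1 : Tendsto (fun n : ℕ => ENNReal.ofReal (1 / (n : ℝ))) atTop (𝓝 0) := by
      have := ENNReal.tendsto_ofReal tendsto_one_div_atTop_nhds_zero_nat
      simpa using this
    exact h1.mono_left inf_le_left
  refine tendsto_of_tendsto_of_tendsto_of_le_of_le' tendsto_const_nhds hlim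
    (Eventually.of_forall fun n => bot_le) ?_
  rw [eventually_inf_principal]
  filter_upwards [eventually_gt_atTop (tau * (1 + j))] with n hn hS
  obtain ⟨i, hi⟩ := hS
  have hl1 : j + 1 ≤ level n := by
    unfold level
    rw [hi, Nat.add_sub_cancel_left]
    exact padic_ge (by omega)
  have hl2 : level (n + tau) = j := by
    unfold level
    have : n + tau - 1 = 2 ^ j * (2 * (i + 1 + o) + 1) := by
      rw [hi, htau]
      have : 1 + 2 ^ (j + 1) * (i + 1) + 2 ^ j * (2 * o + 1) - 1 =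
        2 ^ (j + 1) * (i + 1) + 2 ^ j * (2 * o + 1) := by omega
      rw [this, pow_succ]
      ring
    rw [this]
    exact padic_eq _ _
  refine ENNReal.ofReal_le_ofReal ?_
  refine ratio_drop h (by omega) (by omega) ?_
  rw [hl2]; exact hn

/-- For every `tau ≥ 1`, the ratio of the modified sequence tends to `∞` along a set of
positive lower density. -/
lemma modify_tendsto_top {lam : ℕ → ℂ} (h : ∀ n : ℕ, 1 ≤ n → lam n ≠ 0) {tau : ℕ}
    (ht : 1 ≤ tau) :
    ∃ S : Set ℕ, 0 < lowerDensity S ∧ Tendsto (ratio (modify lam) tau) (atTop ⊓ 𝓟 S) (𝓝 ∞) := by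
  obtain ⟨j, o, htau⟩ := exists_two_pow_mul_odd ht
  refine ⟨{n : ℕ | ∃ i : ℕ, n = (1 + 2 ^ j) + 2 ^ (j + 1) * (i + 1)},
    lowerDensity_progression_pos (1 + 2 ^ j) (2 ^ (j + 1)) Nat.one_le_two_pow, ?_⟩
  have hlim : Tendsto (fun n : ℕ => ENNReal.ofReal (n : ℝ))
      (atTop ⊓ 𝓟 {n : ℕ | ∃ i : ℕ, n = (1 + 2 ^ j) + 2 ^ (j + 1) * (i + 1)}) (𝓝 ∞) := by
    have h1 : Tendsto (fun n : ℕ => ENNReal.ofReal (n : ℝ)) atTop (𝓝 ∞) :=
      ENNReal.tendsto_ofReal_atTop.comp tendsto_natCast_atTop_atTop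
    exact h1.mono_left inf_le_left
  refine tendsto_of_tendsto_of_tendsto_of_le_of_le' hlim tendsto_const_nhds ?_
    (Eventually.of_forall fun n => le_top)
  rw [eventually_inf_principal]
  filter_upwards [eventually_ge_atTop 1] with n hn hS
  obtain ⟨i, hi⟩ := hS
  have hl1 : level n = j := by
    unfold level
    have : n - 1 = 2 ^ j * (2 * (i + 1) + 1) := by
      rw [hi]
      have : 1 + 2 ^ j + 2 ^ (j + 1) * (i + 1) - 1 = 2 ^ j + 2 ^ (j + 1) * (i + 1) := by omega
      rw [this, pow_succ]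
      ring
    rw [this]
    exact padic_eq _ _
  have hl2 : j + 1 ≤ level (n + tau) := by
    unfold level
    have : n + tau - 1 = 2 ^ (j + 1) * (i + 1 + o + 1) := by
      rw [hi, htau]
      have : 1 + 2 ^ j + 2 ^ (j + 1) * (i + 1) + 2 ^ j * (2 * o + 1) - 1 =
        2 ^ j + 2 ^ (j + 1) * (i + 1) + 2 ^ j * (2 * o + 1) := by omega
      rw [this, pow_succ]
      ring
    rw [this]
    exact padic_ge (by omega)
  refine ENNReal.ofReal_le_ofReal ?_
  exact ratio_rise h hn (by omega)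

/-- Positive lower density sets are frequent at infinity. -/
lemma inf_neBot {S : Set ℕ} (h : 0 < lowerDensity S) : (atTop ⊓ 𝓟 S : Filter ℕ).NeBot := by
  rw [← frequently_mem_iff_neBot]
  by_contra hcon
  rw [not_frequently, eventually_atTop] at hcon
  obtain ⟨M, hM⟩ := hcon
  have hsub : S ⊆ (∅ : Set ℕ) ∪ Set.Iio M := by
    intro n hn
    right
    by_contra h'
    exact hM n (by simpa using h') hn
  have h0 : upperDensity (∅ : Set ℕ) = 0 := by
    unfold upperDensity
    simp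
  have h1 := upperDensity_le_of_subset_union hsub
  have h2 : lowerDensity S ≤ upperDensity S :=
    liminf_le_limsup (bdd_above S) (isBoundedUnder_of ⟨0, fun N => ratio_nonneg S N⟩)
  linarith

/-- No limit. -/
lemma no_limit {mu : ℕ → ℂ} {tau : ℕ}
    (h0 : ∃ S : Set ℕ, 0 < lowerDensity S ∧ Tendsto (ratio mu tau) (atTop ⊓ 𝓟 S) (𝓝 0))
    (h1 : ∃ S : Set ℕ, 0 < lowerDensity S ∧ Tendsto (ratio mu tau) (atTop ⊓ 𝓟 S) (𝓝 ∞)) :
    ¬ HasRatioLimit mu tau := by
  rintro ⟨L, hL⟩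
  obtain ⟨S, hS, hSt⟩ := h0
  obtain ⟨S', hS', hSt'⟩ := h1
  have := inf_neBot hS
  have := inf_neBot hS'
  have e0 : L = 0 := tendsto_nhds_unique (hL.mono_left inf_le_left) hSt
  have e1 : L = ∞ := tendsto_nhds_unique (hL.mono_left inf_le_left) hSt'
  rw [e0] at e1
  exact ENNReal.zero_ne_top e1

/-! ## Property `A` of the modified sequence -/

lemma visits_subset {X : Type u} [NormedAddCommGroup X] [NormedSpace ℂ X]
    (lam : ℕ → ℂ) (T : X →L[ℂ] X) (x : X) (U : Set X) {r : ℝ} (hr : 0 < r) :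
    ∃ M : ℕ, {n : ℕ | (modify lam n • T ^ n) x ∈ U ∩ {y | r < ‖y‖}} ⊆
      {n : ℕ | Even n ∧ (lam n • T ^ n) x ∈ U} ∪ Set.Iio M := by
  obtain ⟨M, hM⟩ := orbit_small T x hr
  refine ⟨M + 2, ?_⟩
  intro n hn
  by_cases hp : level n = 0
  · by_cases h2 : n < 2
    · right; simp only [Set.mem_Iio]; omega
    · left
      refine ⟨?_, ?_⟩
      · by_contra hodd
        rw [Nat.not_even_iff_odd] at hodd
        obtain ⟨a, ha⟩ := hodd
        unfold level at hp
        have h3 : n - 1 = 2 ^ (0 + 1) * a := by omega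
        have h4 := padic_ge (j := 0) (m := a) (by omega)
        rw [← h3, hp] at h4
        omega
      · have := hn.1
        rwa [modify_zero_level lam hp] at this
  · right
    by_contra hcon
    have hMn : M ≤ n := by
      simp only [Set.mem_Iio, not_lt] at hcon; omega
    have h1 := hM n hMn (modify lam n) (modify_small lam hp)
    have h2 : r < ‖(modify lam n • T ^ n) x‖ := hn.2
    linarith

lemma propertyA_of_modify {X : Type u} [NormedAddCommGroup X] [NormedSpace ℂ X]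
    (hX : ¬ FiniteDimensional ℂ X) (lam : ℕ → ℂ) (T : X →L[ℂ] X)
    (hA : PropertyA (fun n => modify lam n • T ^ n)) : PropertyA (fun n => lam n • T ^ n) := by
  intro U hU hne
  obtain ⟨r, hr, hopen, hne'⟩ := exists_open_away hX hU hne
  obtain ⟨x, hx⟩ := hA _ hopen hne'
  obtain ⟨M, hM⟩ := visits_subset lam T x U hr
  refine ⟨x, lt_of_lt_of_le hx (upperDensity_le_of_subset_union (M := M) ?_)⟩
  intro n hn
  rcases hM hn with h | h
  · exact Or.inl h.2
  · exact Or.inr h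

lemma propertyA_double {X : Type u} [NormedAddCommGroup X] [NormedSpace ℂ X]
    (hX : ¬ FiniteDimensional ℂ X) (lam : ℕ → ℂ) (T : X →L[ℂ] X) :
    PropertyA (fun n => modify lam n • T ^ n) ↔
      PropertyA (fun n => lam (2 * n) • T ^ (2 * n)) := by
  constructor
  · intro hA U hU hne
    obtain ⟨r, hr, hopen, hne'⟩ := exists_open_away hX hU hne
    obtain ⟨x, hx⟩ := hA _ hopen hne'
    obtain ⟨M, hM⟩ := visits_subset lam T x U hr
    refine ⟨x, lt_of_lt_of_le hx (le_trans ?_ (upperDensity_double_le _))⟩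
    refine upperDensity_le_of_subset_union (M := M) ?_
    intro n hn
    rcases hM hn with h | h
    · left
      obtain ⟨⟨m, hm⟩, h2⟩ := h
      have hm2 : n = 2 * m := by omega
      subst hm2
      exact ⟨m, h2, rfl⟩
    · exact Or.inr h
  · intro hA U hU hne
    obtain ⟨x, hx⟩ := hA U hU hne
    refine ⟨x, ?_⟩
    have h1 := upperDensity_double_ge {n : ℕ | (lam (2 * n) • T ^ (2 * n)) x ∈ U}
    have h2 : upperDensity {n : ℕ | ∃ m ∈ {n : ℕ | (lam (2 * n) • T ^ (2 * n)) x ∈ U}, n = 2 * m}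
        ≤ upperDensity {n : ℕ | (modify lam n • T ^ n) x ∈ U} := by
      refine upperDensity_le_of_subset_union (M := 0) ?_
      rintro n ⟨m, hm, rfl⟩
      left
      show (modify lam (2 * m) • T ^ (2 * m)) x ∈ U
      rw [modify_even lam (even_two_mul m)]
      exact hm
    have h3 : 0 < upperDensity {n : ℕ | (lam (2 * n) • T ^ (2 * n)) x ∈ U} := hx
    linarith

lemma isGood_modify {lam : ℕ → ℂ} (hl : IsGood.{u} lam) : IsGood.{u} (modify lam) := by
  refine ⟨modify_ne_zero hl.1, ?_⟩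
  intro X _ _ _ _ hX T hT
  exact hl.2 X hX T (propertyA_of_modify hX lam T hT)

/-- **Q1 of MP_d99131_an is false.** There is a good sequence whose ratios
`|lam n| / |lam (n + tau)|` have no limit in `[0, ∞]`, for every `tau ≥ 1`.  Moreover, every good
sequence `lam` has a good companion `mu` which agrees with `lam` at all even integers, for which
`(mu n • T ^ n)` has property `A` exactly when `(lam (2 n) • T ^ (2 n))` does, and such that for
every `tau ≥ 1` the ratio `|mu n| / |mu (n + tau)|` tends to `0` along a set of positive lower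
density and to `∞` along another one. -/
theorem result :
    (∃ lam : ℕ → ℂ, IsGood.{u} lam ∧ ∀ tau : ℕ, 1 ≤ tau → ¬ HasRatioLimit lam tau) ∧
    (∀ lam : ℕ → ℂ, IsGood.{u} lam →
      ∃ mu : ℕ → ℂ, IsGood.{u} mu ∧
        (∀ n : ℕ, Even n → mu n = lam n) ∧
        (∀ (X : Type u) [NormedAddCommGroup X] [NormedSpace ℂ X] [CompleteSpace X]
          [TopologicalSpace.SeparableSpace X], ¬ FiniteDimensional ℂ X → ∀ T : X →L[ℂ] X,
          (PropertyA (fun n => mu n • T ^ n) ↔ PropertyA (fun n => lam (2 * n) • T ^ (2 * n)))) ∧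
        ∀ tau : ℕ, 1 ≤ tau →
          ¬ HasRatioLimit mu tau ∧
          (∃ S : Set ℕ, 0 < lowerDensity S ∧ Tendsto (ratio mu tau) (atTop ⊓ 𝓟 S) (𝓝 0)) ∧
          (∃ S : Set ℕ, 0 < lowerDensity S ∧ Tendsto (ratio mu tau) (atTop ⊓ 𝓟 S) (𝓝 ∞))) := by
  have key : ∀ lam : ℕ → ℂ, IsGood.{u} lam → ∀ tau : ℕ, 1 ≤ tau →
          ¬ HasRatioLimit (modify lam) tau ∧
          (∃ S : Set ℕ, 0 < lowerDensity S ∧
            Tendsto (ratio (modify lam) tau) (atTop ⊓ 𝓟 S) (𝓝 0)) ∧
          (∃ S : Set ℕ, 0 < lowerDensity S ∧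
            Tendsto (ratio (modify lam) tau) (atTop ⊓ 𝓟 S) (𝓝 ∞)) := by
    intro lam hl tau ht
    have h0 := modify_tendsto_zero hl.1 ht
    have h1 := modify_tendsto_top hl.1 ht
    exact ⟨no_limit h0 h1, h0, h1⟩
  refine ⟨?_, ?_⟩
  · exact ⟨_, isGood_modify isGood_inv_factorial,
      fun tau ht => (key _ isGood_inv_factorial tau ht).1⟩
  · intro lam hl
    refine ⟨modify lam, isGood_modify hl, fun n hn => modify_even lam hn, ?_, key lam hl⟩
    intro X _ _ _ _ hX T
    exact propertyA_double hX lam T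

end Pool.Agent.Results.MP_d99131_an.NoRatioLimit
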